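import Pool.Agent.P.MP_7fcf1c_co.RateMain

set_option autoImplicit false

namespace Pool.Agent.Results.MP_7fcf1c_co.LogRatio

/-- There is `c > 0` such that for every large `k` some graph on at most `2 ^ k` vertices is
`k`-choosable but is not on-line `m`-choosable for any `m ≤ c * k * log k`.  The last clause
negates membership in the least set of positions (uncoloured set, remaining tokens) that is
closed under the move rule of Painter, that is, in the set of positions Painter wins. -/
theorem result :
    ∃ c : ℝ, 0 < c ∧ ∃ k₀ : ℕ, ∀ k : ℕ, k₀ ≤ k →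
      ∃ (V : Type) (_ : Fintype V) (_ : DecidableEq V) (G : SimpleGraph V),
        Fintype.card V ≤ 2 ^ k ∧
        (∀ L : V → Finset ℕ, (∀ v, k ≤ (L v).card) →
          ∃ col : V → ℕ, (∀ v, col v ∈ L v) ∧ ∀ u v, G.Adj u v → col u ≠ col v) ∧
        ∀ m : ℕ, (m : ℝ) ≤ c * k * Real.log k →
          ¬ (∀ P : Finset V → (V → ℕ) → Prop,
            (∀ (S : Finset V) (f : V → ℕ), (∀ v ∈ S, 1 ≤ f v) →
              (∀ M ⊆ S, M.Nonempty → ∃ I ⊆ M, G.IsIndepSet (↑I : Set V) ∧
                 P (S \ I) (fun v => if v ∈ M \ I then f v - 1 else f v)) →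
              P S f) →
            P Finset.univ (fun _ => m)) :=
  Pool.Agent.P.MP_7fcf1c_co.Rate.main

end Pool.Agent.Results.MP_7fcf1c_co.LogRatio
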